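import Pool.Agent.Helper8.DP2.Defs

set_option autoImplicit false

/-!
# A quaternion algebra is split iff its first entry is a norm (module DQ-N1)
-/

namespace Pool.Agent.Helper8.DP2

open Quaternion

theorem isN_of_sq {K : Type*} [Field K] (h2 : (2 : K) ≠ 0) {d e : K} (he : e ≠ 0)
    (hd : d = e ^ 2) (a : K) : IsN K d a := by
  refine ⟨(a + 1) / 2, (a - 1) / (2 * e), ?_⟩
  rw [hd]
  field_simp
  ring

/-- the matrices which realize the quaternion algebra `(u^2 - d v^2, d)` -/
def matBasis {K : Type*} [Field K] (a d u v : K) (h : a = u ^ 2 - d * v ^ 2) :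
    QuaternionAlgebra.Basis (Matrix (Fin 2) (Fin 2) K) a 0 d where
  i := !![u, -(d * v); v, -u]
  j := !![0, d; 1, 0]
  k := !![-(d * v), u * d; -u, v * d]
  i_mul_i := by
    subst h
    ext i j
    fin_cases i <;> fin_cases j <;> simp [Matrix.mul_apply, Fin.sum_univ_two] <;> ring
  j_mul_j := by
    ext i j
    fin_cases i <;> fin_cases j <;> simp [Matrix.mul_apply, Fin.sum_univ_two]
  i_mul_j := by
    ext i j
    fin_cases i <;> fin_cases j <;> simp [Matrix.mul_apply, Fin.sum_univ_two]
  j_mul_i := by
    ext i j
    fin_cases i <;> fin_cases j <;> simp [Matrix.mul_apply, Fin.sum_univ_two] <;> ring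

theorem matBasis_injective {K : Type*} [Field K] (h2 : (2 : K) ≠ 0) {a d u v : K} (ha : a ≠ 0)
    (hd : d ≠ 0) (h : a = u ^ 2 - d * v ^ 2) :
    Function.Injective (matBasis a d u v h).liftHom := by
  rw [injective_iff_map_eq_zero]
  rintro ⟨x, y, z, w⟩ hq
  have hq' : (matBasis a d u v h).lift ⟨x, y, z, w⟩ = 0 := hq
  unfold QuaternionAlgebra.Basis.lift at hq'
  simp only [matBasis, Algebra.algebraMap_eq_smul_one] at hq'
  have e00 := congrFun (congrFun hq' 0) 0
  have e01 := congrFun (congrFun hq' 0) 1
  have e10 := congrFun (congrFun hq' 1) 0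
  have e11 := congrFun (congrFun hq' 1) 1
  simp at e00 e01 e10 e11
  have hx : x = 0 := by
    have : 2 * x = 0 := by linear_combination e00 + e11
    exact (mul_eq_zero.1 this).resolve_left h2
  have hz : z = 0 := by
    have : 2 * d * z = 0 := by linear_combination e01 + d * e10
    exact (mul_eq_zero.1 this).resolve_left (mul_ne_zero h2 hd)
  subst hx hz
  have hy : y = 0 := by
    have : a * y = 0 := by
      rw [h]
      linear_combination u * e00 - d * v * e10
    exact (mul_eq_zero.1 this).resolve_left ha
  have hw : w = 0 := by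
    have : a * w = 0 := by
      rw [h]
      linear_combination v * e00 - u * e10
    exact (mul_eq_zero.1 this).resolve_left ha
  subst hy hw
  rfl

theorem split_iff {K : Type*} [Field K] (h2 : (2 : K) ≠ 0) {a d : K} (ha : a ≠ 0) (hd : d ≠ 0) :
    Nonempty (ℍ[K, a, d] ≃ₐ[K] Matrix (Fin 2) (Fin 2) K) ↔ IsN K d a := by
  constructor
  · rintro ⟨e⟩
    set q := e.symm (Matrix.single 0 1 (1 : K)) with hq
    have hqq : q * q = 0 := by
      rw [hq, ← map_mul, Matrix.single_mul_single_of_ne, map_zero]
      decide
    have hq0 : q ≠ 0 := by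
      rw [hq]
      intro h
      have h1 : Matrix.single (0 : Fin 2) (1 : Fin 2) (1 : K) = 0 := by
        simpa using h
      have h3 := congrFun (congrFun h1 0) 1
      simp at h3
    clear_value q
    obtain ⟨x, y, z, w⟩ := q
    have r1 := congrArg QuaternionAlgebra.re hqq
    have r2 := congrArg QuaternionAlgebra.imI hqq
    have r3 := congrArg QuaternionAlgebra.imJ hqq
    have r4 := congrArg QuaternionAlgebra.imK hqq
    simp at r1 r2 r3 r4
    have hx : x = 0 := by
      by_contra hx
      have h2x : 2 * x ≠ 0 := mul_ne_zero h2 hx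
      have hy : y = 0 := by
        have : 2 * x * y = 0 := by linear_combination r2
        exact (mul_eq_zero.1 this).resolve_left h2x
      have hz : z = 0 := by
        have : 2 * x * z = 0 := by linear_combination r3
        exact (mul_eq_zero.1 this).resolve_left h2x
      have hw : w = 0 := by
        have : 2 * x * w = 0 := by linear_combination r4
        exact (mul_eq_zero.1 this).resolve_left h2x
      subst hy hz hw
      apply hx
      have : x ^ 2 = 0 := by linear_combination r1
      exact pow_eq_zero_iff two_ne_zero |>.1 this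
    subst hx
    by_cases hM : y ^ 2 - d * w ^ 2 = 0
    · have hz : z = 0 := by
        have : d * z ^ 2 = 0 := by linear_combination r1 - a * hM
        exact pow_eq_zero_iff two_ne_zero |>.1 ((mul_eq_zero.1 this).resolve_left hd)
      subst hz
      have hw : w ≠ 0 := by
        rintro rfl
        apply hq0
        have hy : y = 0 := by
          have : y ^ 2 = 0 := by linear_combination hM
          exact pow_eq_zero_iff two_ne_zero |>.1 this
        subst hy
        rfl
      have hd' : d = (y / w) ^ 2 := by
        field_simp
        linear_combination -hM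
      have hy : y / w ≠ 0 := by
        intro h
        rw [h] at hd'
        exact hd (by simpa using hd')
      exact isN_of_sq h2 hy hd' a
    · refine ⟨z * d * w / (y ^ 2 - d * w ^ 2), z * y / (y ^ 2 - d * w ^ 2), ?_⟩
      have h3 : a * (y ^ 2 - d * w ^ 2) = -(d * z ^ 2) := by linear_combination r1
      field_simp
      linear_combination (y ^ 2 - d * w ^ 2) * h3
  · rintro ⟨u, v, h⟩
    have hinj := matBasis_injective h2 ha hd h
    have hfin : Module.finrank K ℍ[K, a, d] = Module.finrank K (Matrix (Fin 2) (Fin 2) K) := by
      rw [QuaternionAlgebra.finrank_eq_four, Module.finrank_matrix]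
      simp
    have hsurj : Function.Surjective (matBasis a d u v h).liftHom :=
      (LinearMap.injective_iff_surjective_of_finrank_eq_finrank
        (f := (matBasis a d u v h).liftHom.toLinearMap) hfin).1 hinj
    exact ⟨AlgEquiv.ofBijective _ ⟨hinj, hsurj⟩⟩

end Pool.Agent.Helper8.DP2
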