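import Pool.Agent.Helper18.DP2.RamCore
import Pool.Agent.Helper22.DP2.Primitive

set_option autoImplicit false

/-!
# Ramified places: all points (module DQ-R)
-/

namespace Pool.Agent.Helper8.DP2

open Quaternion RamAux

theorem ram_inv {p : ℕ} [Fact p.Prime] {m n d e : ℤ} (hb : ¬ (p : ℤ) ∣ bad m n)
    (hd : d = p * e) (he : ¬ (p : ℤ) ∣ e) (P : Pt m n d ℚ_[p]) :
    ∃ x y z : ZMod p, Nrm x y z ∧ F m n x y z = 0 ∧ LocVec P (cls m n x y z) := by
  have hpp : p.Prime := Fact.out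
  have he0 : e ≠ 0 := fun h => he (h ▸ dvd_zero _)
  have hb0 : bad m n ≠ 0 := fun h => hb (h ▸ dvd_zero _)
  have hd0 : d ≠ 0 := by
    rw [hd]
    exact mul_ne_zero (by exact_mod_cast hpp.ne_zero) he0
  obtain ⟨Q, x, y, z, w, hx, hy, hz, hw, hu, hinv⟩ :=
    exists_primitive hb0 hd0 (not_isSquare_ram hd he) P
  obtain ⟨hF, hL⟩ := core hb hd he Q x y z w hx hy hz hw hu
  set xb := PadicInt.toZMod x with hxb
  set yb := PadicInt.toZMod y with hyb
  set zb := PadicInt.toZMod z with hzb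
  have h0 : ¬ (xb = 0 ∧ yb = 0 ∧ zb = 0) := by
    rintro ⟨a1, a2, a3⟩
    rcases hu with h | h | h
    · exact (h.map (PadicInt.toZMod (p := p))).ne_zero a1
    · exact (h.map (PadicInt.toZMod (p := p))).ne_zero a2
    · exact (h.map (PadicInt.toZMod (p := p))).ne_zero a3
  clear_value xb yb zb
  -- normalisation
  have hnorm : ∃ l x' y' z' : ZMod p, l ≠ 0 ∧ Nrm x' y' z' ∧ xb = l * x' ∧ yb = l * y' ∧
      zb = l * z' := by
    by_cases h1 : xb = 0
    · by_cases h2 : yb = 0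
      · have h3 : zb ≠ 0 := fun h3 => h0 ⟨h1, h2, h3⟩
        exact ⟨zb, 0, 0, 1, h3, Or.inr (Or.inr ⟨rfl, rfl, rfl⟩), by simp [h1], by simp [h2],
          by simp⟩
      · exact ⟨yb, 0, 1, zb / yb, h2, Or.inr (Or.inl ⟨rfl, rfl⟩), by simp [h1], by simp,
          by field_simp⟩
    · exact ⟨xb, 1, yb / xb, zb / xb, h1, Or.inl rfl, by simp, by field_simp, by field_simp⟩
  obtain ⟨l, x', y', z', hl, hN, rfl, rfl, rfl⟩ := hnorm
  have hF' : F m n x' y' z' = 0 := by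
    have h1 : F m n (l * x') (l * y') (l * z') = l ^ 4 * F m n x' y' z' := by
      unfold F; ring
    rw [h1] at hF
    exact (mul_eq_zero.1 hF).resolve_left (pow_ne_zero 4 hl)
  have h0' : ¬ (x' = 0 ∧ y' = 0 ∧ z' = 0) := by
    rintro ⟨rfl, rfl, rfl⟩
    exact h0 (by simp)
  refine ⟨x', y', z', hN, hF', fun T hT => ?_⟩
  rw [hinv T hT, hL T hT]
  rw [Finset.sum_congr rfl fun i _ => cls_smul m n hl i (red_ne_zero hb hF' h0' i)]
  exact sum_even_const hT _ _

end Pool.Agent.Helper8.DP2
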