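import Pool.Agent.Helper8.DP2.Defs
import Pool.Agent.Helper1.DP2.Norm2
import Pool.Agent.Helper4.DP2.Sq
import Pool.Agent.Helper28.DP2.Alg

set_option autoImplicit false

/-!
# Ramified places (module DQ-R)
-/

namespace Pool.Agent.Helper8.DP2

open Quaternion

namespace RamAux

theorem coe_inj0 {p : ℕ} [Fact p.Prime] {u : ℤ_[p]} (h : (u : ℚ_[p]) = 0) : u = 0 :=
  Subtype.coe_injective (by simpa using h)

/-! ### compatibility with ring homomorphisms -/

theorem map_F {R S : Type*} [CommRing R] [CommRing S] (f : R →+* S) (m n : ℤ) (x y z : R) :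
    f (F m n x y z) = F m n (f x) (f y) (f z) := by
  have h2 : f 2 = 2 := map_ofNat f 2
  simp [F, h2]

theorem map_kap {R S : Type*} [CommRing R] [CommRing S] (f : R →+* S) (m n : ℤ) :
    f (kap m n) = kap m n := by
  simp [kap]

theorem map_lin {R S : Type*} [CommRing R] [CommRing S] (f : R →+* S) (m n : ℤ) (x y z : R)
    (i : Fin 7) : f (lin m n x y z i) = lin m n (f x) (f y) (f z) i := by
  fin_cases i <;> simp [lin]

theorem map_com {R S : Type*} [CommRing R] [CommRing S] (f : R →+* S) (m n : ℤ) (x y z : R)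
    (i : Fin 7) : f (com m n x y z i) = com m n (f x) (f y) (f z) i := by
  have h4 : f 4 = 4 := map_ofNat f 4
  fin_cases i <;> simp [com, map_kap, h4]

theorem lin_smul {R : Type*} [CommRing R] (m n : ℤ) (l x y z : R) (i : Fin 7) :
    lin m n (l * x) (l * y) (l * z) i = l * lin m n x y z i := by
  fin_cases i <;> simp [lin] <;> ring

theorem com_smul {R : Type*} [CommRing R] (m n : ℤ) (l x y z : R) (i : Fin 7) :
    com m n (l * x) (l * y) (l * z) i = l ^ 3 * com m n x y z i := by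
  fin_cases i <;> simp [com] <;> ring

/-! ### the quadratic character -/

theorem isSquare_mul_iff_fin {p : ℕ} [Fact p.Prime] {a b : ZMod p} (ha : a ≠ 0) (hb : b ≠ 0) :
    IsSquare (a * b) ↔ (IsSquare a ↔ IsSquare b) := by
  have hab : a * b ≠ 0 := mul_ne_zero ha hb
  rw [← quadraticChar_one_iff_isSquare ha, ← quadraticChar_one_iff_isSquare hb,
    ← quadraticChar_one_iff_isSquare hab, map_mul]
  rcases quadraticChar_dichotomy ha with h1 | h1 <;>
    rcases quadraticChar_dichotomy hb with h2 | h2 <;> simp [h1, h2]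

open Classical in
/-- the quadratic character, with values in `ZMod 2` -/
noncomputable def qch {p : ℕ} (a : ZMod p) : ZMod 2 := if IsSquare a then 0 else 1

theorem qch_eq_zero {p : ℕ} (a : ZMod p) : qch a = 0 ↔ IsSquare a := by
  unfold qch
  split_ifs with h <;> simp [h]

theorem qch_mul {p : ℕ} [Fact p.Prime] {a b : ZMod p} (ha : a ≠ 0) (hb : b ≠ 0) :
    qch (a * b) = qch a + qch b := by
  unfold qch
  by_cases h1 : IsSquare a <;> by_cases h2 : IsSquare b <;>
    simp [isSquare_mul_iff_fin ha hb, h1, h2]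
  decide

theorem qch_prod {p : ℕ} [Fact p.Prime] {ι : Type*} (T : Finset ι) (f : ι → ZMod p)
    (hf : ∀ i ∈ T, f i ≠ 0) : qch (∏ i ∈ T, f i) = ∑ i ∈ T, qch (f i) := by
  classical
  induction T using Finset.induction_on with
  | empty => simp [qch]
  | insert a s ha ih =>
    rw [Finset.prod_insert ha, Finset.sum_insert ha, qch_mul (hf a (Finset.mem_insert_self a s))
      (Finset.prod_ne_zero_iff.2 fun i hi => hf i (Finset.mem_insert_of_mem hi)),
      ih fun i hi => hf i (Finset.mem_insert_of_mem hi)]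

theorem cls_eq {p : ℕ} (m n : ℤ) (x y z : ZMod p) (i : Fin 7) :
    cls m n x y z i = qch (red m n x y z i) := rfl

/-! ### rescaling of the vector of classes -/

theorem cls_smul {p : ℕ} [Fact p.Prime] (m n : ℤ) {l x y z : ZMod p} (hl : l ≠ 0) (i : Fin 7)
    (hr : red m n x y z i ≠ 0) :
    cls m n (l * x) (l * y) (l * z) i = cls m n x y z i + qch l := by
  rw [cls_eq, cls_eq]
  unfold red at hr ⊢
  rw [lin_smul, com_smul]
  by_cases h : lin m n x y z i = 0
  · simp only [h, mul_zero, ne_eq, not_true_eq_false, if_false] at hr ⊢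
    rw [show -(l ^ 3 * com m n x y z i) = l * (l * (l * -com m n x y z i)) by ring,
      qch_mul hl (by simpa [hl] using hr), qch_mul hl (by simpa [hl] using hr),
      qch_mul hl hr]
    have : qch l + qch l = 0 := CharTwo.add_self_eq_zero _
    linear_combination this
  · have h' : l * lin m n x y z i ≠ 0 := mul_ne_zero hl h
    simp only [ne_eq, h, h', not_false_eq_true, if_true]
    rw [qch_mul hl h, add_comm]

theorem sum_even_const {T : Finset (Fin 7)} (hT : Even T.card) (f : Fin 7 → ZMod 2) (t : ZMod 2) :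
    ∑ i ∈ T, (f i + t) = ∑ i ∈ T, f i := by
  rw [Finset.sum_add_distrib, Finset.sum_const, nsmul_eq_mul]
  obtain ⟨k, hk⟩ := hT
  have : (T.card : ZMod 2) = 0 := by
    rw [hk]; push_cast; exact CharTwo.add_self_eq_zero _
  rw [this, zero_mul, add_zero]

/-! ### the main computation -/

theorem bad_ne {p : ℕ} [Fact p.Prime] {m n : ℤ} (hb : ¬ (p : ℤ) ∣ bad m n) :
    ((bad m n : ℤ) : ZMod p) ≠ 0 := by
  rwa [ne_eq, ZMod.intCast_zmod_eq_zero_iff_dvd]

theorem p_ne_two {p : ℕ} {m n : ℤ} (hb : ¬ (p : ℤ) ∣ bad m n) : p ≠ 2 := by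
  rintro rfl
  apply hb
  unfold bad
  push_cast
  refine Dvd.intro (m * n * (m ^ 2 - n ^ 2) * (m ^ 2 + n ^ 2) * kap m n) ?_
  ring

theorem red_ne_zero {p : ℕ} [Fact p.Prime] {m n : ℤ} (hb : ¬ (p : ℤ) ∣ bad m n)
    {x y z : ZMod p} (hF : F m n x y z = 0) (h0 : ¬ (x = 0 ∧ y = 0 ∧ z = 0)) (i : Fin 7) :
    red m n x y z i ≠ 0 := by
  unfold red
  split_ifs with h
  · exact h
  · push Not at h
    intro hc
    have hc' : com m n x y z i = 0 := by simpa using hc
    have h1 := basic m n x y z i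
    rw [hF, h, mul_zero, zero_mul, add_zero] at h1
    have hq : qua m n x y z i = 0 := pow_eq_zero_iff two_ne_zero |>.1 h1.symm
    exact h0 (no_common_zero (bad_ne hb) x y z i h hc' hq)

/-- the surface equation gives norms -/
theorem ent_norm {m n d : ℤ} {K : Type*} [Field K] (hd : (d : K) ≠ 0) (P : Pt m n d K)
    (i : Fin 7) (hc : com m n P.x P.y P.z i ≠ 0) :
    IsN K (d : K) (ent P i * -com m n P.x P.y P.z i) := by
  unfold ent
  by_cases h : lin m n P.x P.y P.z i = 0
  · simp only [h, ne_eq, not_true_eq_false, if_false, hc, not_false_eq_true, if_true]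
    exact ⟨0, com m n P.x P.y P.z i, by ring⟩
  · simp only [h, ne_eq, not_false_eq_true, if_true]
    refine ⟨qua m n P.x P.y P.z i, scl m n i * P.w / d, ?_⟩
    have h1 := basic m n P.x P.y P.z i
    have h2 := P.eq
    field_simp
    linear_combination (d : K) * h1 + (scl m n i) ^ 2 * h2

theorem core {p : ℕ} [Fact p.Prime] {m n d e : ℤ} (hb : ¬ (p : ℤ) ∣ bad m n)
    (hd : d = p * e) (he : ¬ (p : ℤ) ∣ e) (P : Pt m n d ℚ_[p]) (x y z w : ℤ_[p])
    (hx : P.x = x) (hy : P.y = y) (hz : P.z = z) (hw : P.w = w)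
    (hu : IsUnit x ∨ IsUnit y ∨ IsUnit z) :
    F m n (PadicInt.toZMod x) (PadicInt.toZMod y) (PadicInt.toZMod z) = 0 ∧
      LocVec P (cls m n (PadicInt.toZMod x) (PadicInt.toZMod y) (PadicInt.toZMod z)) := by
  have hp2 := p_ne_two hb
  have hpp : p.Prime := Fact.out
  have he0 : e ≠ 0 := fun h => he (h ▸ dvd_zero _)
  have hd0 : (d : ℚ_[p]) ≠ 0 := by
    rw [hd]; push_cast
    exact mul_ne_zero (by exact_mod_cast hpp.ne_zero) (by exact_mod_cast he0)
  have heu : ((e : ℤ) : ZMod p) ≠ 0 := by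
    rwa [ne_eq, ZMod.intCast_zmod_eq_zero_iff_dvd]
  -- the equation over the integers
  have heq : w ^ 2 = (p : ℤ_[p]) * ((e : ℤ_[p]) * F m n x y z) := by
    have h1 := P.eq
    rw [hx, hy, hz, hw, hd] at h1
    apply Subtype.coe_injective
    have h2 : (F m n (x : ℚ_[p]) (y : ℚ_[p]) (z : ℚ_[p])) = ((F m n x y z : ℤ_[p]) : ℚ_[p]) :=
      (map_F PadicInt.Coe.ringHom m n x y z).symm
    rw [h2] at h1
    push_cast at h1 ⊢
    rw [h1]
    ring
  have hwz : PadicInt.toZMod w = 0 := by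
    have h1 := congrArg PadicInt.toZMod heq
    rw [map_pow, map_mul, map_natCast, CharP.cast_eq_zero, zero_mul] at h1
    exact pow_eq_zero_iff two_ne_zero |>.1 h1
  have hpne : (p : ℤ_[p]) ≠ 0 := by exact_mod_cast hpp.ne_zero
  have hFz : F m n (PadicInt.toZMod x) (PadicInt.toZMod y) (PadicInt.toZMod z) = 0 := by
    have h1 : w ∈ IsLocalRing.maximalIdeal ℤ_[p] := by
      rw [← PadicInt.ker_toZMod]; exact hwz
    rw [PadicInt.maximalIdeal_eq_span_p, Ideal.mem_span_singleton] at h1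
    obtain ⟨w', rfl⟩ := h1
    have h2 : (p : ℤ_[p]) * w' ^ 2 = (e : ℤ_[p]) * F m n x y z := by
      apply mul_left_cancel₀ hpne
      rw [← heq]; ring
    have h3 := congrArg PadicInt.toZMod h2
    rw [map_mul, map_mul, map_natCast, CharP.cast_eq_zero, zero_mul, map_intCast, map_F] at h3
    exact (mul_eq_zero.1 h3.symm).resolve_left heu
  refine ⟨hFz, ?_⟩
  set xb := PadicInt.toZMod x with hxb
  set yb := PadicInt.toZMod y with hyb
  set zb := PadicInt.toZMod z with hzb
  have h0 : ¬ (xb = 0 ∧ yb = 0 ∧ zb = 0) := by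
    rintro ⟨a1, a2, a3⟩
    rcases hu with h | h | h
    · exact (h.map (PadicInt.toZMod (p := p))).ne_zero a1
    · exact (h.map (PadicInt.toZMod (p := p))).ne_zero a2
    · exact (h.map (PadicInt.toZMod (p := p))).ne_zero a3
  have hunit : ∀ u : ℤ_[p], PadicInt.toZMod u ≠ 0 → IsUnit u := by
    intro u hu'
    by_contra hcon
    apply hu'
    have h1 : u ∈ IsLocalRing.maximalIdeal ℤ_[p] := by
      rwa [IsLocalRing.mem_maximalIdeal]
    rw [← PadicInt.ker_toZMod] at h1
    exact h1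
  have hr := red_ne_zero hb hFz h0
  -- units with reduction `red`
  have hU : ∀ i, ∃ u : ℤ_[p], IsUnit u ∧ PadicInt.toZMod u = red m n xb yb zb i ∧
      IsN ℚ_[p] (d : ℚ_[p]) (ent P i * (u : ℚ_[p])) := by
    intro i
    have hlin : lin m n P.x P.y P.z i = ((lin m n x y z i : ℤ_[p]) : ℚ_[p]) := by
      rw [hx, hy, hz]
      exact (map_lin PadicInt.Coe.ringHom m n x y z i).symm
    have hcom : com m n P.x P.y P.z i = ((com m n x y z i : ℤ_[p]) : ℚ_[p]) := by
      rw [hx, hy, hz]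
      exact (map_com PadicInt.Coe.ringHom m n x y z i).symm
    by_cases hl : lin m n xb yb zb i = 0
    · have hred : red m n xb yb zb i = -com m n xb yb zb i := by
        unfold red
        simp [hl]
      have hc0 : PadicInt.toZMod (-com m n x y z i) = red m n xb yb zb i := by
        rw [map_neg, map_com, hred]
      have hcu : IsUnit (-com m n x y z i) := hunit _ (by rw [hc0]; exact hr i)
      have hcne : com m n P.x P.y P.z i ≠ 0 := by
        rw [hcom]
        intro h
        have h1 : com m n x y z i = 0 := coe_inj0 h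
        rw [h1, neg_zero] at hcu
        exact not_isUnit_zero hcu
      refine ⟨-com m n x y z i, hcu, hc0, ?_⟩
      have := ent_norm hd0 P i hcne
      rw [hcom] at this
      push_cast
      exact this
    · have hred : red m n xb yb zb i = lin m n xb yb zb i := by
        unfold red
        simp [hl]
      have hc0 : PadicInt.toZMod (lin m n x y z i) = red m n xb yb zb i := by
        rw [map_lin, hred]
      have hcu : IsUnit (lin m n x y z i) := hunit _ (by rw [hc0]; exact hr i)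
      refine ⟨lin m n x y z i, hcu, hc0, ?_⟩
      have hne : lin m n P.x P.y P.z i ≠ 0 := by
        rw [hlin]
        intro h
        have h1 : lin m n x y z i = 0 := coe_inj0 h
        rw [h1] at hcu
        exact not_isUnit_zero hcu
      have hent : ent P i = ((lin m n x y z i : ℤ_[p]) : ℚ_[p]) := by
        unfold ent
        rw [if_pos hne, hlin]
      rw [hent]
      exact ⟨((lin m n x y z i : ℤ_[p]) : ℚ_[p]), 0, by ring⟩
  choose u hu1 hu2 hu3 using hU
  intro T hT
  have key : inv P T = 0 ↔ ∑ i ∈ T, cls m n xb yb zb i = 0 := by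
    have h2 : (2 : ℚ_[p]) ≠ 0 := two_ne_zero
    rw [inv_eq_zero_iff h2 hd0]
    have hprod : IsN ℚ_[p] (d : ℚ_[p]) ((∏ i ∈ T, ent P i) * ((∏ i ∈ T, u i : ℤ_[p]) : ℚ_[p])) := by
      have h3 : ∀ S : Finset (Fin 7), IsN ℚ_[p] (d : ℚ_[p]) (∏ i ∈ S, (ent P i * (u i : ℚ_[p]))) := by
        intro S
        induction S using Finset.induction_on with
        | empty => simpa using IsN.one (d : ℚ_[p])
        | insert a s ha ih => rw [Finset.prod_insert ha]; exact (hu3 a).mul ih
      have h4 := h3 T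
      rw [Finset.prod_mul_distrib] at h4
      have h5 : ((∏ i ∈ T, u i : ℤ_[p]) : ℚ_[p]) = ∏ i ∈ T, (u i : ℚ_[p]) :=
        map_prod PadicInt.Coe.ringHom u T
      rw [h5]
      exact h4
    have hA : ∏ i ∈ T, ent P i ≠ 0 := Finset.prod_ne_zero_iff.2 fun i _ => ent_ne_zero hd0 P i
    have hBu : IsUnit (∏ i ∈ T, u i : ℤ_[p]) := by
      apply hunit
      rw [map_prod]
      exact Finset.prod_ne_zero_iff.2 fun i _ => by rw [hu2]; exact hr i
    have hB : ((∏ i ∈ T, u i : ℤ_[p]) : ℚ_[p]) ≠ 0 := by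
      intro h
      have h1 : (∏ i ∈ T, u i : ℤ_[p]) = 0 := coe_inj0 h
      rw [h1] at hBu
      exact not_isUnit_zero hBu
    have h6 : IsN ℚ_[p] (d : ℚ_[p]) (∏ i ∈ T, ent P i) ↔
        IsN ℚ_[p] (d : ℚ_[p]) ((∏ i ∈ T, u i : ℤ_[p]) : ℚ_[p]) := by
      constructor
      · intro h
        exact (IsN.mul_iff hA h).1 hprod
      · intro h
        rw [mul_comm] at hprod
        exact (IsN.mul_iff hB h).1 hprod
    rw [h6, isN_ram hp2 d e hd he _ hBu, map_prod]
    rw [Finset.prod_congr rfl fun i _ => hu2 i, ← qch_eq_zero,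
      qch_prod T _ fun i _ => hr i]
    rfl
  have hinv : inv P T = 0 ∨ inv P T = 1 := by
    unfold inv
    split_ifs <;> simp
  have h01 : ∀ s : ZMod 2, s = 0 ∨ s = 1 := by decide
  rcases hinv with h | h
  · rw [h, key.1 h]
  · rcases h01 (∑ i ∈ T, cls m n xb yb zb i) with h' | h'
    · rw [key.2 h'] at h
      exact absurd h (by decide)
    · rw [h, h']

theorem not_isSquare_ram {p : ℕ} [Fact p.Prime] {d e : ℤ} (hd : d = p * e)
    (he : ¬ (p : ℤ) ∣ e) : ¬ IsSquare (d : ℚ_[p]) := by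
  have hpp : p.Prime := Fact.out
  rintro ⟨s, hs⟩
  have he0 : e ≠ 0 := fun h => he (h ▸ dvd_zero _)
  have hd0 : (d : ℚ_[p]) ≠ 0 := by
    rw [hd]; push_cast
    exact mul_ne_zero (by exact_mod_cast hpp.ne_zero) (by exact_mod_cast he0)
  have hs0 : s ≠ 0 := by
    rintro rfl
    exact hd0 (by simpa using hs)
  have h1 : (d : ℚ_[p]).valuation = s.valuation + s.valuation := by
    rw [hs, Padic.valuation_mul hs0 hs0]
  have h2 : (d : ℚ_[p]).valuation = 1 := by
    rw [Padic.valuation_intCast, hd]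
    have : padicValInt p (p * e) = 1 := by
      rw [padicValInt.mul (by exact_mod_cast hpp.ne_zero) he0, padicValInt.self hpp.one_lt,
        padicValInt.eq_zero_of_not_dvd he]
    rw [this]; rfl
  omega

end RamAux

open RamAux

theorem ram_exists {p : ℕ} [Fact p.Prime] {m n d e : ℤ} (hb : ¬ (p : ℤ) ∣ bad m n)
    (hd : d = p * e) (he : ¬ (p : ℤ) ∣ e) (X Y Z g : ℤ) (hF : F m n X Y Z = p * g)
    (hg : ((e * g : ℤ) : ZMod p) ≠ 0) (hs : IsSquare ((e * g : ℤ) : ZMod p)) :
    ∃ P : Pt m n d ℚ_[p], LocVec P (cls m n (X : ZMod p) (Y : ZMod p) (Z : ZMod p)) := by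
  have hpp : p.Prime := Fact.out
  have hp2 := p_ne_two hb
  have hunit : ∀ u : ℤ_[p], PadicInt.toZMod u ≠ 0 → IsUnit u := by
    intro u hu'
    by_contra hcon
    apply hu'
    have h1 : u ∈ IsLocalRing.maximalIdeal ℤ_[p] := by
      rwa [IsLocalRing.mem_maximalIdeal]
    rw [← PadicInt.ker_toZMod] at h1
    exact h1
  have hmap : PadicInt.toZMod (((e * g : ℤ) : ℤ_[p])) = ((e * g : ℤ) : ZMod p) := map_intCast _ _
  obtain ⟨s, hs⟩ := isSquare_of_toZMod hp2 ((e * g : ℤ) : ℤ_[p])
    (hunit _ (by rw [hmap]; exact hg)) (by rw [hmap]; exact hs)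
  have h0 : (X : ZMod p) ≠ 0 ∨ (Y : ZMod p) ≠ 0 ∨ (Z : ZMod p) ≠ 0 := by
    by_contra hcon
    push Not at hcon
    obtain ⟨a1, a2, a3⟩ := hcon
    rw [ZMod.intCast_zmod_eq_zero_iff_dvd] at a1 a2 a3
    obtain ⟨X', rfl⟩ := a1
    obtain ⟨Y', rfl⟩ := a2
    obtain ⟨Z', rfl⟩ := a3
    have h1 : F m n ((p : ℤ) * X') ((p : ℤ) * Y') ((p : ℤ) * Z') = (p : ℤ) * (p ^ 3 * F m n X' Y' Z') := by
      unfold F; ring
    rw [h1] at hF
    have h2 : (p : ℤ) ^ 3 * F m n X' Y' Z' = g :=
      mul_left_cancel₀ (by exact_mod_cast hpp.ne_zero) hF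
    apply hg
    rw [← h2]
    push_cast
    simp
  have hcast : ∀ a : ℤ, PadicInt.toZMod (a : ℤ_[p]) = (a : ZMod p) := fun a => map_intCast _ _
  have hu : IsUnit (X : ℤ_[p]) ∨ IsUnit (Y : ℤ_[p]) ∨ IsUnit (Z : ℤ_[p]) := by
    rcases h0 with h | h | h
    · exact Or.inl (hunit _ (by rw [hcast]; exact h))
    · exact Or.inr (Or.inl (hunit _ (by rw [hcast]; exact h)))
    · exact Or.inr (Or.inr (hunit _ (by rw [hcast]; exact h)))
  have hne : ¬ ((X : ℚ_[p]) = 0 ∧ (Y : ℚ_[p]) = 0 ∧ (Z : ℚ_[p]) = 0) := by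
    rintro ⟨a1, a2, a3⟩
    have b1 : X = 0 := by exact_mod_cast a1
    have b2 : Y = 0 := by exact_mod_cast a2
    have b3 : Z = 0 := by exact_mod_cast a3
    subst b1 b2 b3
    simp at h0
  have hFQ : F m n (X : ℚ_[p]) (Y : ℚ_[p]) (Z : ℚ_[p]) = (p : ℚ_[p]) * (g : ℚ_[p]) := by
    have h1 := map_F (Int.castRingHom ℚ_[p]) m n X Y Z
    rw [hF] at h1
    simpa using h1.symm
  let P : Pt m n d ℚ_[p] :=
    { x := X, y := Y, z := Z, w := (p : ℚ_[p]) * (s : ℚ_[p]), ne := hne,
      eq := by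
        rw [hFQ, hd]
        have h1 : ((e * g : ℤ) : ℚ_[p]) = (s : ℚ_[p]) * (s : ℚ_[p]) := by
          have h2 := congrArg (fun t : ℤ_[p] => (t : ℚ_[p])) hs
          simpa using h2
        push_cast at h1 ⊢
        linear_combination -(p : ℚ_[p]) ^ 2 * h1 }
  have hc := core hb hd he P X Y Z ((p : ℤ_[p]) * s) (by simp [P]) (by simp [P]) (by simp [P])
    (by simp [P]) hu
  refine ⟨P, ?_⟩
  have := hc.2
  rwa [hcast, hcast, hcast] at this

end Pool.Agent.Helper8.DP2
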